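import Pool.Agent.V8H12.OP.C

set_option autoImplicit false

/-! The asymptotic formula in the intervals of Oppermann for almost all integers. -/

namespace Pool.Agent.V8H12.OP

open Finset Filter ArithmeticFunction
open Pool.Agent.Q236.CR (S_SIC)

/-- from dyadic blocks to initial segments -/
theorem dyadic (E : ℕ → Prop) [DecidablePred E] (h : ∀ U : ℕ, ∃ N₀ : ℕ, ∀ N : ℕ, N₀ ≤ N →
    (((Ioc N (2 * N)).filter E).card : ℝ) ≤ N / Real.log N ^ U) (U : ℕ) :
    ∃ X₀ : ℕ, ∀ X : ℕ, X₀ ≤ X → (((Icc 1 X).filter E).card : ℝ) ≤ X / Real.log X ^ U := by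
  obtain ⟨N₀, hN₀⟩ := h (U + 1)
  -- the number of the exceptions up to `2 ^ j M`
  have key : ∀ M : ℕ, max N₀ 3 ≤ M → ∀ j : ℕ,
      (((Icc 1 (2 ^ j * M)).filter E).card : ℝ) ≤ M + 2 ^ j * M / Real.log M ^ (U + 1) := by
    intro M hM j
    have hM3 : 3 ≤ M := (le_max_right _ _).trans hM
    have hM0 : (0 : ℝ) < M := by exact_mod_cast (by omega : 0 < M)
    have hlM : 0 < Real.log M := Real.log_pos (by exact_mod_cast (by omega : 1 < M))
    induction j with
    | zero =>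
      have h1 : (((Icc 1 (2 ^ 0 * M)).filter E).card : ℝ) ≤ M := by
        have h2 := card_filter_le (Icc 1 (2 ^ 0 * M)) E
        rw [Nat.card_Icc, pow_zero, one_mul] at h2
        have h3 : ((Icc 1 (2 ^ 0 * M)).filter E).card ≤ M := by
          rw [pow_zero, one_mul]
          omega
        exact_mod_cast h3
      have h2 : (0 : ℝ) ≤ 2 ^ 0 * M / Real.log M ^ (U + 1) := by positivity
      exact h1.trans (le_add_of_nonneg_right h2)
    | succ j ih =>
      have hMj : M ≤ 2 ^ j * M := Nat.le_mul_of_pos_left _ (by positivity)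
      have h1 : (Icc 1 (2 ^ (j + 1) * M)).filter E ⊆
          (Icc 1 (2 ^ j * M)).filter E ∪ (Ioc (2 ^ j * M) (2 * (2 ^ j * M))).filter E := by
        intro t ht
        rw [mem_filter, mem_Icc] at ht
        rw [mem_union, mem_filter, mem_filter, mem_Icc, mem_Ioc]
        have e : 2 ^ (j + 1) * M = 2 * (2 ^ j * M) := by ring
        rw [e] at ht
        rcases Nat.lt_or_ge (2 ^ j * M) t with h2 | h2
        · right
          exact ⟨⟨h2, ht.1.2⟩, ht.2⟩
        · left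
          exact ⟨⟨ht.1.1, h2⟩, ht.2⟩
      have h2 := (card_le_card h1).trans (card_union_le _ _)
      have h3 := hN₀ (2 ^ j * M) ((le_max_left _ _).trans (hM.trans hMj))
      have h4 : (((2 ^ j * M : ℕ) : ℝ)) / Real.log ((2 ^ j * M : ℕ) : ℝ) ^ (U + 1) ≤
          2 ^ j * M / Real.log M ^ (U + 1) := by
        have h5 : Real.log M ≤ Real.log ((2 ^ j * M : ℕ) : ℝ) := Real.log_le_log hM0 (by exact_mod_cast hMj)
        have h6 : Real.log M ^ (U + 1) ≤ Real.log ((2 ^ j * M : ℕ) : ℝ) ^ (U + 1) := pow_le_pow_left₀ hlM.le h5 _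
        refine div_le_div₀ (by positivity) (le_of_eq ?_) (by positivity) h6
        push_cast
        ring
      have h5 : (((Icc 1 (2 ^ (j + 1) * M)).filter E).card : ℝ) ≤
          (((Icc 1 (2 ^ j * M)).filter E).card : ℝ) + (((Ioc (2 ^ j * M) (2 * (2 ^ j * M))).filter E).card : ℝ) := by
        exact_mod_cast h2
      have h6 : (2 : ℝ) ^ (j + 1) * M / Real.log M ^ (U + 1) =
          2 ^ j * M / Real.log M ^ (U + 1) + 2 ^ j * M / Real.log M ^ (U + 1) := by ring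
      rw [h6]
      linarith
  -- choice of `M`
  have c1 : ∀ᶠ x : ℝ in atTop, Real.log x ^ U ≤ 1 / 8 * x ^ (1 / 2 : ℝ) := by
    have h2 := (isLittleO_log_rpow_rpow_atTop (s := (1 / 2 : ℝ)) ((U : ℕ) : ℝ) (by norm_num)).bound
      (c := 1 / 8) (by norm_num)
    filter_upwards [h2, eventually_ge_atTop 1] with x hx hx1
    rw [Real.norm_eq_abs, Real.norm_eq_abs, abs_of_nonneg (Real.rpow_nonneg (Real.log_nonneg hx1) _),
      abs_of_nonneg (by positivity), Real.rpow_natCast] at hx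
    exact hx
  obtain ⟨X₁, hX₁⟩ := eventually_atTop.1 (tendsto_natCast_atTop_atTop.eventually c1)
  have c2 : ∀ᶠ X : ℕ in atTop, 8 * 3 ^ (U + 1) ≤ Real.log X :=
    (Real.tendsto_log_atTop.comp tendsto_natCast_atTop_atTop).eventually_ge_atTop _
  obtain ⟨X₂, hX₂⟩ := eventually_atTop.1 c2
  refine ⟨max (max X₁ X₂) ((max N₀ 3) ^ 2 * 16 + 64), fun X hX => ?_⟩
  have hXa := hX₁ X ((le_max_left _ _).trans ((le_max_left _ _).trans hX))
  have hXb := hX₂ X ((le_max_right _ _).trans ((le_max_left _ _).trans hX))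
  have hXc := (le_max_right _ _).trans hX
  have hX0 : (0 : ℝ) < X := by exact_mod_cast (by omega : 0 < X)
  -- `j` with `2 ^ j` about `√X`
  obtain ⟨j, hj⟩ : ∃ j, j = Nat.log 2 (Nat.sqrt X) := ⟨_, rfl⟩
  have hs1 : Nat.sqrt X * Nat.sqrt X ≤ X := Nat.sqrt_le X
  have hs2 : X < (Nat.sqrt X + 1) * (Nat.sqrt X + 1) := Nat.lt_succ_sqrt X
  have hs0 : 4 * max N₀ 3 ≤ Nat.sqrt X := by
    rw [Nat.le_sqrt]
    have e : 4 * max N₀ 3 * (4 * max N₀ 3) = (max N₀ 3) ^ 2 * 16 := by ring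
    omega
  have hs8 : 8 ≤ Nat.sqrt X := by
    rw [Nat.le_sqrt]
    omega
  have hj1 : 2 ^ j ≤ Nat.sqrt X := by
    rw [hj]
    exact Nat.pow_log_le_self 2 (by omega)
  have hj2 : Nat.sqrt X < 2 ^ (j + 1) := by
    rw [hj]
    exact Nat.lt_pow_succ_log_self (by norm_num) _
  have hj0 : 0 < 2 ^ j := by positivity
  -- `M = ⌈X / 2 ^ j⌉`
  obtain ⟨M, hM⟩ : ∃ M, M = X / 2 ^ j + 1 := ⟨_, rfl⟩
  have hMX : X ≤ 2 ^ j * M := by
    rw [hM]
    have := Nat.lt_mul_div_succ X hj0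
    exact this.le
  have hMX2 : 2 ^ j * M ≤ 2 * X := by
    rw [hM]
    have h1 := Nat.mul_div_le X (2 ^ j)
    have h2 : 2 ^ j ≤ X := by nlinarith
    calc 2 ^ j * (X / 2 ^ j + 1) = 2 ^ j * (X / 2 ^ j) + 2 ^ j := by ring
      _ ≤ X + X := by omega
      _ = _ := by ring
  have hMs : Nat.sqrt X ≤ M := by
    rw [hM]
    have h1 : Nat.sqrt X ≤ X / 2 ^ j := by
      rw [Nat.le_div_iff_mul_le hj0]
      exact (Nat.mul_le_mul_left _ hj1).trans hs1
    omega
  have hMle : M ≤ 4 * Nat.sqrt X := by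
    -- `X / 2 ^ j ≤ 2 X / √X`
    have h1 : X / 2 ^ j ≤ 3 * Nat.sqrt X := by
      apply Nat.div_le_of_le_mul
      have h2 : Nat.sqrt X + 1 ≤ 2 * 2 ^ j := by
        rw [pow_succ] at hj2
        omega
      have h3 : X ≤ (Nat.sqrt X + 1) * (Nat.sqrt X + 1) := hs2.le
      nlinarith
    rw [hM]
    omega
  have hM1 := key M (by omega) j
  have hsub : (Icc 1 X).filter E ⊆ (Icc 1 (2 ^ j * M)).filter E :=
    filter_subset_filter _ (Icc_subset_Icc le_rfl hMX)
  have h1 : (((Icc 1 X).filter E).card : ℝ) ≤ (((Icc 1 (2 ^ j * M)).filter E).card : ℝ) := by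
    exact_mod_cast card_le_card hsub
  refine (h1.trans hM1).trans ?_
  -- logarithms
  have hlX : 0 < Real.log X := by
    have : (0 : ℝ) < 8 * 3 ^ (U + 1) := by positivity
    linarith
  have hM3 : Real.log X ≤ 3 * Real.log M := by
    have h2 : (X : ℝ) ≤ (M : ℝ) ^ 3 := by
      have h3 : X ≤ M ^ 3 := by
        have h4 : X < (M + 1) * (M + 1) := hs2.trans_le (Nat.mul_le_mul (by omega) (by omega))
        have h5 : 8 ≤ M := hs8.trans hMs
        nlinarith
      exact_mod_cast h3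
    have h3 := Real.log_le_log hX0 h2
    rw [Real.log_pow] at h3
    exact_mod_cast h3
  have hA : (2 : ℝ) ^ j * M / Real.log M ^ (U + 1) ≤ 1 / 4 * (X / Real.log X ^ U) := by
    have h2 : (Real.log X) ^ (U + 1) ≤ 3 ^ (U + 1) * Real.log M ^ (U + 1) := by
      rw [← mul_pow]
      exact pow_le_pow_left₀ hlX.le hM3 _
    have hlM : 0 < Real.log M := by linarith
    have h3 : (2 : ℝ) ^ j * M ≤ 2 * X := by exact_mod_cast hMX2
    rw [div_le_iff₀ (by positivity)]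
    have h4 : (X : ℝ) / Real.log X ^ U * Real.log M ^ (U + 1) ≥ X * (Real.log X / 3 ^ (U + 1)) := by
      have h5 : Real.log X / 3 ^ (U + 1) ≤ Real.log M ^ (U + 1) / Real.log X ^ U := by
        rw [div_le_div_iff₀ (by positivity) (by positivity)]
        calc Real.log X * Real.log X ^ U = Real.log X ^ (U + 1) := by ring
          _ ≤ 3 ^ (U + 1) * Real.log M ^ (U + 1) := h2
          _ = _ := by ring
      calc (X : ℝ) * (Real.log X / 3 ^ (U + 1)) ≤ X * (Real.log M ^ (U + 1) / Real.log X ^ U) :=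
            mul_le_mul_of_nonneg_left h5 hX0.le
        _ = _ := by ring
    have h5 : 8 ≤ Real.log X / 3 ^ (U + 1) := by
      rw [le_div_iff₀ (by positivity)]
      exact hXb
    nlinarith
  have hC : (M : ℝ) ≤ 4 * (X : ℝ) ^ (1 / 2 : ℝ) := by
    have h2 : (M : ℝ) ≤ 4 * (Nat.sqrt X : ℝ) := by exact_mod_cast hMle
    have h3 : (Nat.sqrt X : ℝ) ≤ (X : ℝ) ^ (1 / 2 : ℝ) := by
      rw [← Real.sqrt_eq_rpow]
      exact Real.nat_sqrt_le_real_sqrt
    linarith
  have hD : (M : ℝ) ≤ 1 / 2 * (X / Real.log X ^ U) := by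
    rw [← mul_div_assoc, le_div_iff₀ (by positivity)]
    have h2 : (X : ℝ) ^ (1 / 2 : ℝ) * (X : ℝ) ^ (1 / 2 : ℝ) = X := by
      rw [← Real.rpow_add hX0]
      norm_num
    have h3 : (0 : ℝ) ≤ (X : ℝ) ^ (1 / 2 : ℝ) := by positivity
    calc (M : ℝ) * Real.log X ^ U ≤ (4 * (X : ℝ) ^ (1 / 2 : ℝ)) * (1 / 8 * (X : ℝ) ^ (1 / 2 : ℝ)) :=
          mul_le_mul hC hXa (by positivity) (by positivity)
      _ = 1 / 2 * ((X : ℝ) ^ (1 / 2 : ℝ) * (X : ℝ) ^ (1 / 2 : ℝ)) := by ring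
      _ = 1 / 2 * X := by rw [h2]
  have hE : 0 ≤ (X : ℝ) / Real.log X ^ U := by positivity
  linarith

/-- every part of length at least `n / (log n)^A` of the two intervals of Oppermann has the expected number of primes, up to
the factor `1 ± δ` -/
def Asym (A : ℕ) (δ : ℝ) (n : ℕ) : Prop :=
  ∀ y h : ℕ, (n : ℝ) / Real.log n ^ A ≤ h → n ^ 2 ≤ y + n → y + h ≤ n ^ 2 + n →
    (1 - δ) * (h / (2 * Real.log n)) ≤ (((Ioc y (y + h)).filter Nat.Prime).card : ℝ) ∧
    (((Ioc y (y + h)).filter Nat.Prime).card : ℝ) ≤ (1 + δ) * (h / (2 * Real.log n))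

open Classical in
/-- **the exceptional set** -/
theorem few_not_asym (h : S_SIC) (A : ℕ) {δ : ℝ} (hδ : 0 < δ) (U : ℕ) : ∃ X₀ : ℕ, ∀ X : ℕ, X₀ ≤ X →
    (((Icc 1 X).filter (fun n => ¬ Asym A δ n)).card : ℝ) ≤ X / Real.log X ^ U := by
  obtain ⟨n₀, hn₀⟩ := primes_of A hδ
  refine dyadic (fun n => ¬ Asym A δ n) (fun V => ?_) U
  obtain ⟨N₀, hN₀⟩ := block h A (ε := δ / 4) (by positivity) V
  refine ⟨max N₀ n₀, fun N hN => ?_⟩
  refine le_trans ?_ (hN₀ N ((le_max_left _ _).trans hN))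
  have h1 : (Ioc N (2 * N)).filter (fun n => ¬ Asym A δ n) ⊆ (Ioc N (2 * N)).filter (fun n => Dev A (δ / 4) n) := by
    intro n hn
    rw [mem_filter] at hn ⊢
    refine ⟨hn.1, ?_⟩
    by_contra hcon
    apply hn.2
    intro y l h1 h2 h3
    have hn1 := (mem_Ioc.1 hn.1).1
    refine hn₀ n y l ((le_max_right _ _).trans (hN.trans hn1.le)) h1 h2 h3 ?_
    by_contra h4
    exact hcon ⟨y, l, h1, h2, h3, not_le.1 h4⟩
  exact_mod_cast card_le_card h1

end Pool.Agent.V8H12.OP
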