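import Mathlib

set_option autoImplicit false

/-! Elementary part: from mean squares in short windows to the intervals of Oppermann. -/

namespace Pool.Agent.V8H12.OP

open Finset Filter

/-- windows of prefix sums -/
lemma tele (P : ℕ → ℝ) {B : ℝ} {a n Y : ℕ} (hB : ∀ m : ℕ, m < a + n + Y → |P (m + 1) - P m| ≤ B) :
    |(Y : ℝ) * (P (a + n) - P a) - ∑ m ∈ Ico a (a + n), (P (m + Y) - P m)| ≤ 2 * (Y : ℝ) ^ 2 * B := by
  have hB0 : 0 ≤ B ∨ a + n + Y = 0 := by
    rcases Nat.eq_zero_or_pos (a + n + Y) with h | h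
    · right; exact h
    · left; exact (abs_nonneg _).trans (hB 0 h)
  have step : ∀ b j : ℕ, b + j ≤ a + n + Y → |P (b + j) - P b| ≤ j * B := by
    intro b j
    induction j with
    | zero => intro _; simp
    | succ j ih =>
      intro hj
      have h1 := ih (by omega)
      have h2 := hB (b + j) (by omega)
      have h3 : P (b + (j + 1)) - P b = (P (b + j + 1) - P (b + j)) + (P (b + j) - P b) := by
        rw [show b + (j + 1) = b + j + 1 by ring]
        ring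
      rw [h3]
      refine (abs_add_le _ _).trans ?_
      push_cast
      linarith
  -- the identity
  have e1 : ∑ m ∈ Ico a (a + n), P (m + Y) = ∑ m ∈ Ico (a + Y) (a + n + Y), P m := by
    rw [Finset.sum_Ico_add' P a (a + n) Y]
  have e2 : ∑ m ∈ Ico a (a + Y), P m + ∑ m ∈ Ico (a + Y) (a + n + Y), P m = ∑ m ∈ Ico a (a + n + Y), P m :=
    Finset.sum_Ico_consecutive P (by omega) (by omega)
  have e3 : ∑ m ∈ Ico a (a + n), P m + ∑ m ∈ Ico (a + n) (a + n + Y), P m = ∑ m ∈ Ico a (a + n + Y), P m :=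
    Finset.sum_Ico_consecutive P (by omega) (by omega)
  have e4 : ∑ m ∈ Ico a (a + n), (P (m + Y) - P m) =
      ∑ m ∈ Ico (a + n) (a + n + Y), P m - ∑ m ∈ Ico a (a + Y), P m := by
    rw [sum_sub_distrib, e1]
    linarith
  have e5 : ∑ m ∈ Ico (a + n) (a + n + Y), P m = ∑ j ∈ range Y, P (a + n + j) := by
    rw [Finset.sum_Ico_eq_sum_range]
    congr 1
    congr 1
    omega
  have e6 : ∑ m ∈ Ico a (a + Y), P m = ∑ j ∈ range Y, P (a + j) := by
    rw [Finset.sum_Ico_eq_sum_range]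
    congr 1
    congr 1
    omega
  have e7 : (Y : ℝ) * (P (a + n) - P a) - ∑ m ∈ Ico a (a + n), (P (m + Y) - P m) =
      ∑ j ∈ range Y, ((P (a + j) - P a) - (P (a + n + j) - P (a + n))) := by
    rw [e4, e5, e6, sum_sub_distrib, sum_sub_distrib, sum_sub_distrib, sum_const, sum_const, card_range]
    simp only [nsmul_eq_mul]
    ring
  rw [e7]
  have h1 : ∀ j ∈ range Y, |(P (a + j) - P a) - (P (a + n + j) - P (a + n))| ≤ 2 * Y * B := by
    intro j hj
    rw [mem_range] at hj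
    have hB1 : 0 ≤ B := by
      rcases hB0 with h | h
      · exact h
      · omega
    have h2 := step a j (by omega)
    have h3 := step (a + n) j (by omega)
    have h4 : (j : ℝ) * B ≤ Y * B := mul_le_mul_of_nonneg_right (by exact_mod_cast hj.le) hB1
    refine (abs_sub _ _).trans ?_
    linarith
  refine (abs_sum_le_sum_abs _ _).trans ((sum_le_card_nsmul _ _ _ h1).trans (le_of_eq ?_))
  rw [card_range, nsmul_eq_mul]
  ring

/-- a large window sum forces a large mean square -/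
lemma force (P : ℕ → ℝ) {B ε : ℝ} {a n Y : ℕ} (hn : 1 ≤ n)
    (hB : ∀ m : ℕ, m < a + n + Y → |P (m + 1) - P m| ≤ B) (hε : 0 < ε) (hYB : 4 * (Y : ℝ) * B ≤ ε * n)
    (h : ε * n ≤ |P (a + n) - P a|) :
    (Y : ℝ) ^ 2 * (ε ^ 2 * n / 4) ≤ ∑ m ∈ Ico a (a + n), (P (m + Y) - P m) ^ 2 := by
  have hn0 : (0 : ℝ) < n := by exact_mod_cast hn
  have hY0 : (0 : ℝ) ≤ Y := Nat.cast_nonneg Y
  have h1 := tele P hB
  have h2 : |∑ m ∈ Ico a (a + n), (P (m + Y) - P m)| ≥ Y * (ε * n / 2) := by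
    have h3 : |(Y : ℝ) * (P (a + n) - P a)| ≥ Y * (ε * n) := by
      rw [abs_mul, abs_of_nonneg hY0]
      exact mul_le_mul_of_nonneg_left h hY0
    have h4 := abs_sub_abs_le_abs_sub ((Y : ℝ) * (P (a + n) - P a)) (∑ m ∈ Ico a (a + n), (P (m + Y) - P m))
    have h5 : 2 * (Y : ℝ) ^ 2 * B ≤ Y * (ε * n / 2) := by nlinarith
    nlinarith
  have h3 : (∑ m ∈ Ico a (a + n), (P (m + Y) - P m)) ^ 2 ≤ n * ∑ m ∈ Ico a (a + n), (P (m + Y) - P m) ^ 2 := by
    have h5 := sum_mul_sq_le_sq_mul_sq (Ico a (a + n)) (fun _ => (1 : ℝ)) (fun m => P (m + Y) - P m)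
    simp only [one_mul, one_pow, sum_const, Nat.card_Ico, nsmul_eq_mul, mul_one] at h5
    rw [show a + n - a = n by omega] at h5
    exact h5
  have h6 : (Y * (ε * n / 2)) ^ 2 ≤ (∑ m ∈ Ico a (a + n), (P (m + Y) - P m)) ^ 2 := by
    rw [← sq_abs (∑ m ∈ Ico a (a + n), (P (m + Y) - P m))]
    exact pow_le_pow_left₀ (by positivity) h2 2
  have h7 : (Y * (ε * n / 2)) ^ 2 ≤ n * ∑ m ∈ Ico a (a + n), (P (m + Y) - P m) ^ 2 := h6.trans h3
  have h8 : (Y * (ε * n / 2)) ^ 2 = n * ((Y : ℝ) ^ 2 * (ε ^ 2 * n / 4)) := by ring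
  rw [h8] at h7
  exact le_of_mul_le_mul_left h7 hn0

/-- the number of the disjoint windows with a large sum -/
lemma windows_count (P : ℕ → ℝ) {B ε H : ℝ} {M M' Y : ℕ} (S : Finset ℕ) (a l : ℕ → ℕ)
    (ha : ∀ n ∈ S, M < a n ∧ a n + l n ≤ M') (hl : ∀ n ∈ S, 1 ≤ l n ∧ H ≤ l n)
    (hdis : ∀ n ∈ S, ∀ n' ∈ S, n < n' → a n + l n ≤ a n')
    (hB : ∀ m : ℕ, m < M' + Y → |P (m + 1) - P m| ≤ B) (hε : 0 < ε) (hYB : 4 * (Y : ℝ) * B ≤ ε * H)
    (h : ∀ n ∈ S, ε * l n ≤ |P (a n + l n) - P (a n)|) :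
    (S.card : ℝ) * ((Y : ℝ) ^ 2 * (ε ^ 2 * H / 4)) ≤ ∑ m ∈ Ioc M M', (P (m + Y) - P m) ^ 2 := by
  classical
  have h1 : ∀ n ∈ S, (Y : ℝ) ^ 2 * (ε ^ 2 * H / 4) ≤ ∑ m ∈ Ico (a n) (a n + l n), (P (m + Y) - P m) ^ 2 := by
    intro n hn
    obtain ⟨h5, h6⟩ := hl n hn
    have h2 := force P h5 (fun m hm => hB m (by have := (ha n hn).2; omega)) hε
      (hYB.trans (mul_le_mul_of_nonneg_left h6 hε.le)) (h n hn)
    refine le_trans ?_ h2
    have h3 : ε ^ 2 * H / 4 ≤ ε ^ 2 * l n / 4 := by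
      have := mul_le_mul_of_nonneg_left h6 (sq_nonneg ε)
      linarith
    exact mul_le_mul_of_nonneg_left h3 (by positivity)
  have h2 := card_nsmul_le_sum S _ _ h1
  rw [nsmul_eq_mul] at h2
  refine h2.trans ?_
  rw [← sum_biUnion]
  · apply sum_le_sum_of_subset_of_nonneg
    · intro m hm
      rw [mem_biUnion] at hm
      obtain ⟨n, hn, hm⟩ := hm
      rw [mem_Ico] at hm
      have := ha n hn
      rw [mem_Ioc]
      omega
    · intro m _ _
      positivity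
  · intro n hn n' hn' hne
    rw [Function.onFun, disjoint_left]
    intro m hm hm'
    rw [mem_Ico] at hm hm'
    rcases lt_or_gt_of_ne hne with h3 | h3
    · have := hdis n hn n' hn' h3
      omega
    · have := hdis n' hn' n hn h3
      omega

end Pool.Agent.V8H12.OP
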