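import Mathlib

set_option autoImplicit false

/-! Elementary part: from the von Mangoldt function to primes in the intervals of Oppermann. -/

namespace Pool.Agent.V8H12.OP

open Finset Filter ArithmeticFunction

lemma gap {a n p q k : ℕ} (hn : 1 ≤ n) (ha : n ^ 2 ≤ a + n) (hk : 2 ≤ k) (hpq : p < q) (hp : a < p ^ k)
    (hq : q ^ k ≤ a + n) : False := by
  have hp1 : 1 ≤ p := by
    rcases Nat.eq_zero_or_pos p with h | h
    · subst h
      rw [zero_pow (by omega)] at hp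
      omega
    · exact h
  obtain ⟨j, rfl⟩ : ∃ j, k = j + 2 := ⟨k - 2, by omega⟩
  obtain ⟨A, hA⟩ : ∃ A, A = p ^ (j + 1) := ⟨_, rfl⟩
  have h1 : p ^ (j + 2) = A * p := by rw [hA, ← pow_succ]
  have h2 : p ^ (j + 2) ≤ A ^ 2 := by
    rw [hA, ← pow_mul]
    exact Nat.pow_le_pow_right hp1 (by omega)
  have h3 : n ≤ A := by
    by_contra hcon
    have h4 : A + 1 ≤ n := by omega
    have h5 : A ^ 2 < n ^ 2 - n + 1 := by
      have h6 : n ≤ n ^ 2 := by nlinarith
      zify [h6]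
      have h7 : (A : ℤ) + 1 ≤ n := by exact_mod_cast h4
      have h8 : (0 : ℤ) ≤ A := by positivity
      nlinarith
    have h6 : n ≤ n ^ 2 := by nlinarith
    omega
  have h4 : (p + 1) ^ (j + 2) ≤ q ^ (j + 2) := Nat.pow_le_pow_left hpq _
  have h5 : A * p + A ≤ (p + 1) ^ (j + 2) := by
    have h6 : A ≤ (p + 1) ^ (j + 1) := by
      rw [hA]
      exact Nat.pow_le_pow_left (by omega) _
    calc A * p + A = A * (p + 1) := by ring
      _ ≤ (p + 1) ^ (j + 1) * (p + 1) := Nat.mul_le_mul_right _ h6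
      _ = (p + 1) ^ (j + 2) := by rw [← pow_succ]
  omega

open Classical in
/-- there are few proper prime powers in the interval -/
lemma pp_count {n a : ℕ} (hn : 1 ≤ n) (ha : n ^ 2 ≤ a + n) (ha' : a + n ≤ n ^ 2 + n) :
    ((Ioc a (a + n)).filter (fun t => IsPrimePow t ∧ ¬ t.Prime)).card ≤ Nat.log 2 (n ^ 2 + n) + 1 := by
  have h1 : ∀ t ∈ (Ioc a (a + n)).filter (fun t => IsPrimePow t ∧ ¬ t.Prime), ∃ p k : ℕ, p.Prime ∧ 2 ≤ k ∧ p ^ k = t ∧
      t.factorization t.minFac = k := by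
    intro t ht
    rw [mem_filter] at ht
    obtain ⟨-, hpp, hnp⟩ := ht
    obtain ⟨p, k, hp, hk, rfl⟩ := (isPrimePow_nat_iff _).1 hpp
    have hk2 : 2 ≤ k := by
      rcases Nat.lt_or_ge k 2 with h | h
      · have : k = 1 := by omega
        subst this
        rw [pow_one] at hnp
        exact absurd hp hnp
      · exact h
    refine ⟨p, k, hp, hk2, rfl, ?_⟩
    rw [hp.pow_minFac (by omega), hp.factorization_pow, Finsupp.single_eq_same]
  have h2 : ((Ioc a (a + n)).filter (fun t => IsPrimePow t ∧ ¬ t.Prime)).card ≤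
      (range (Nat.log 2 (n ^ 2 + n) + 1)).card := by
    refine card_le_card_of_injOn (fun t => t.factorization t.minFac) ?_ ?_
    · intro t ht
      obtain ⟨p, k, hp, hk, hpk, he⟩ := h1 t ht
      rw [mem_coe, mem_range]
      show t.factorization t.minFac < _
      rw [he]
      have ht2 := (mem_Ioc.1 (mem_filter.1 ht).1).2
      have h3 : 2 ^ k ≤ n ^ 2 + n := by
        calc 2 ^ k ≤ p ^ k := Nat.pow_le_pow_left hp.two_le _
          _ = t := hpk
          _ ≤ a + n := ht2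
          _ ≤ _ := ha'
      have := Nat.le_log_of_pow_le (by norm_num) h3
      omega
    · intro t ht t' ht' hee
      obtain ⟨p, k, hp, hk, hpk, he⟩ := h1 t ht
      obtain ⟨p', k', hp', hk', hpk', he'⟩ := h1 t' ht'
      have hee' : t.factorization t.minFac = t'.factorization t'.minFac := hee
      rw [he, he'] at hee'
      subst hee'
      have g1 := mem_Ioc.1 (mem_filter.1 ht).1
      have g2 := mem_Ioc.1 (mem_filter.1 ht').1
      rcases lt_trichotomy p p' with h | h | h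
      · exact (gap hn ha hk h (by rw [hpk]; exact g1.1) (by rw [hpk']; exact g2.2)).elim
      · rw [← hpk, ← hpk', h]
      · exact (gap hn ha hk h (by rw [hpk']; exact g2.1) (by rw [hpk]; exact g1.2)).elim
  rwa [card_range] at h2

open Classical in
/-- there are few proper prime powers in a part of the two intervals -/
lemma pp_count2 {n y h : ℕ} (hn : 1 ≤ n) (hy : n ^ 2 ≤ y + n) (hy' : y + h ≤ n ^ 2 + n) :
    ((Ioc y (y + h)).filter (fun t => IsPrimePow t ∧ ¬ t.Prime)).card ≤ 2 * (Nat.log 2 (n ^ 2 + n) + 1) := by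
  have hnn : n ≤ n ^ 2 := by nlinarith
  have h1 := pp_count (a := n ^ 2 - n) hn (by omega) (by omega)
  have h2 := pp_count (a := n ^ 2) hn (by omega) (by omega)
  have h3 : (Ioc y (y + h)).filter (fun t => IsPrimePow t ∧ ¬ t.Prime) ⊆
      (Ioc (n ^ 2 - n) (n ^ 2 - n + n)).filter (fun t => IsPrimePow t ∧ ¬ t.Prime) ∪
        (Ioc (n ^ 2) (n ^ 2 + n)).filter (fun t => IsPrimePow t ∧ ¬ t.Prime) := by
    intro t ht
    rw [mem_filter, mem_Ioc] at ht
    rw [mem_union, mem_filter, mem_filter, mem_Ioc, mem_Ioc]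
    rcases Nat.lt_or_ge (n ^ 2) t with h | h
    · right
      exact ⟨⟨h, by omega⟩, ht.2⟩
    · left
      exact ⟨⟨by omega, by omega⟩, ht.2⟩
  have h4 := (card_le_card h3).trans (card_union_le _ _)
  omega

open Classical in
/-- the contribution of the proper prime powers -/
lemma pp_sum {n y h : ℕ} (hn : 1 ≤ n) (hy : n ^ 2 ≤ y + n) (hy' : y + h ≤ n ^ 2 + n) :
    0 ≤ ∑ t ∈ Ioc y (y + h), vonMangoldt t - ∑ t ∈ (Ioc y (y + h)).filter Nat.Prime, Real.log t ∧
    ∑ t ∈ Ioc y (y + h), vonMangoldt t - ∑ t ∈ (Ioc y (y + h)).filter Nat.Prime, Real.log t ≤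
      2 * ((Nat.log 2 (n ^ 2 + n) : ℝ) + 1) * Real.log (n ^ 2 + n) := by
  have e1 : ∑ t ∈ (Ioc y (y + h)).filter Nat.Prime, Real.log t =
      ∑ t ∈ (Ioc y (y + h)).filter Nat.Prime, vonMangoldt t := by
    refine sum_congr rfl fun t ht => ?_
    rw [vonMangoldt_apply_prime (mem_filter.1 ht).2]
  have e2 : ∑ t ∈ Ioc y (y + h), vonMangoldt t - ∑ t ∈ (Ioc y (y + h)).filter Nat.Prime, Real.log t =
      ∑ t ∈ (Ioc y (y + h)).filter (fun t => IsPrimePow t ∧ ¬ t.Prime), vonMangoldt t := by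
    rw [e1, ← sum_filter_add_sum_filter_not (Ioc y (y + h)) Nat.Prime (fun t => vonMangoldt t), add_sub_cancel_left]
    symm
    apply sum_subset
    · intro t ht
      rw [mem_filter] at ht ⊢
      exact ⟨ht.1, ht.2.2⟩
    · intro t ht ht'
      rw [mem_filter] at ht ht'
      rw [vonMangoldt_eq_zero_iff]
      intro h
      exact ht' ⟨ht.1, h, ht.2⟩
  rw [e2]
  constructor
  · exact sum_nonneg fun t _ => vonMangoldt_nonneg
  · have h1 : ∀ t ∈ (Ioc y (y + h)).filter (fun t => IsPrimePow t ∧ ¬ t.Prime),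
        vonMangoldt t ≤ Real.log (n ^ 2 + n) := by
      intro t ht
      have h2 := mem_Ioc.1 (mem_filter.1 ht).1
      refine vonMangoldt_le_log.trans ?_
      apply Real.log_le_log
      · exact_mod_cast (by omega : 0 < t)
      · exact_mod_cast h2.2.trans hy'
    have h2 := sum_le_card_nsmul _ _ _ h1
    rw [nsmul_eq_mul] at h2
    refine h2.trans ?_
    apply mul_le_mul_of_nonneg_right
    · exact_mod_cast pp_count2 hn hy hy'
    · apply Real.log_nonneg
      have : (1 : ℝ) ≤ n := by exact_mod_cast hn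
      nlinarith

open Classical in
/-- **primes** -/
lemma primes_of (A : ℕ) {δ : ℝ} (hδ : 0 < δ) : ∃ n₀ : ℕ, ∀ n y h : ℕ, n₀ ≤ n → (n : ℝ) / Real.log n ^ A ≤ h →
    n ^ 2 ≤ y + n → y + h ≤ n ^ 2 + n → |∑ t ∈ Ioc y (y + h), (vonMangoldt t - 1)| ≤ δ / 4 * h →
    (1 - δ) * (h / (2 * Real.log n)) ≤ (((Ioc y (y + h)).filter Nat.Prime).card : ℝ) ∧
    (((Ioc y (y + h)).filter Nat.Prime).card : ℝ) ≤ (1 + δ) * (h / (2 * Real.log n)) := by
  have hlim := (Real.isLittleO_pow_log_id_atTop (n := A + 2)).bound (c := δ / 336) (by positivity)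
  have h0 : ∀ᶠ n : ℕ in atTop, 1 / δ + 1 ≤ Real.log n :=
    (Real.tendsto_log_atTop.comp tendsto_natCast_atTop_atTop).eventually_ge_atTop _
  obtain ⟨n₁, hn₁⟩ := eventually_atTop.1 (tendsto_natCast_atTop_atTop.eventually hlim)
  obtain ⟨n₂, hn₂⟩ := eventually_atTop.1 h0
  refine ⟨max (max n₁ n₂) 3, fun n y h hn hh ha ha' hs => ?_⟩
  have hn3 : 3 ≤ n := (le_max_right _ _).trans hn
  have hL1 := hn₂ n ((le_max_right _ _).trans ((le_max_left _ _).trans hn))
  have hlo := hn₁ n ((le_max_left _ _).trans ((le_max_left _ _).trans hn))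
  obtain ⟨L, hL⟩ : ∃ L, L = Real.log n := ⟨_, rfl⟩
  rw [← hL] at hL1 hh
  have hn3' : (3 : ℝ) ≤ n := by exact_mod_cast hn3
  have hn0 : (0 : ℝ) < n := by linarith
  have h1δ : 0 < 1 / δ := by positivity
  have hL1' : 1 < L := by linarith
  simp only [id, Real.norm_eq_abs, abs_of_pos hn0] at hlo
  rw [← hL, abs_of_nonneg (by positivity)] at hlo
  have hlog2 : Real.log 2 ≤ 1 := by
    have := Real.log_two_lt_d9
    linarith
  have hlog2' : (1 / 2 : ℝ) ≤ Real.log 2 := by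
    have := Real.log_two_gt_d9
    linarith
  have hLA : 0 < L ^ A := by positivity
  have hh0 : (0 : ℝ) < h := lt_of_lt_of_le (by positivity) hh
  have hh2 : 42 * L ^ 2 ≤ δ / 8 * h := by
    rw [div_le_iff₀ hLA] at hh
    have h3 : L ^ 2 * L ^ A ≤ δ / 336 * (h * L ^ A) := by
      calc L ^ 2 * L ^ A = L ^ (A + 2) := by rw [pow_add]; ring
        _ ≤ δ / 336 * n := hlo
        _ ≤ _ := mul_le_mul_of_nonneg_left hh (by positivity)
    have h4 : L ^ 2 ≤ δ / 336 * h := by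
      have h5 : L ^ 2 * L ^ A ≤ (δ / 336 * h) * L ^ A := h3.trans (le_of_eq (by ring))
      exact le_of_mul_le_mul_right h5 hLA
    linarith
  obtain ⟨h1, h2⟩ := pp_sum (by omega : 1 ≤ n) ha ha'
  -- the remainder
  have hm : Real.log (n ^ 2 + n) ≤ 3 * L := by
    have h3 : (n : ℝ) ^ 2 + n ≤ (n : ℝ) ^ 3 := by nlinarith [sq_nonneg ((n : ℝ) - 1)]
    calc Real.log (n ^ 2 + n) ≤ Real.log ((n : ℝ) ^ 3) := Real.log_le_log (by positivity) h3
      _ = 3 * L := by rw [Real.log_pow, hL]; norm_num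
  have hm0 : 0 ≤ Real.log ((n : ℝ) ^ 2 + n) := Real.log_nonneg (by nlinarith)
  have hK : ((Nat.log 2 (n ^ 2 + n) : ℕ) : ℝ) ≤ 6 * L := by
    have h4 : (2 : ℝ) ^ Nat.log 2 (n ^ 2 + n) ≤ (n : ℝ) ^ 2 + n := by
      exact_mod_cast Nat.pow_log_le_self 2 (by omega : n ^ 2 + n ≠ 0)
    have h5 := Real.log_le_log (by positivity) h4
    rw [Real.log_pow] at h5
    have h8 : ((Nat.log 2 (n ^ 2 + n) : ℕ) : ℝ) * (1 / 2) ≤ (Nat.log 2 (n ^ 2 + n) : ℕ) * Real.log 2 :=
      mul_le_mul_of_nonneg_left hlog2' (Nat.cast_nonneg _)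
    linarith
  have hR : 2 * ((Nat.log 2 (n ^ 2 + n) : ℝ) + 1) * Real.log (n ^ 2 + n) ≤ δ / 8 * h := by
    have h3 : ((Nat.log 2 (n ^ 2 + n) : ℝ) + 1) * Real.log (n ^ 2 + n) ≤ (6 * L + 1) * (3 * L) :=
      mul_le_mul (by linarith) hm hm0 (by linarith)
    nlinarith
  -- the sum over the primes
  obtain ⟨S, hS⟩ : ∃ S, S = ∑ t ∈ (Ioc y (y + h)).filter Nat.Prime, Real.log t := ⟨_, rfl⟩
  rw [← hS] at h1 h2
  have hsum : ∑ t ∈ Ioc y (y + h), (vonMangoldt t - 1) = ∑ t ∈ Ioc y (y + h), vonMangoldt t - h := by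
    rw [sum_sub_distrib, sum_const, Nat.card_Ioc, nsmul_eq_mul, mul_one, show y + h - y = h by omega]
  rw [hsum] at hs
  have hs2 := abs_le.1 hs
  obtain ⟨c, hc⟩ : ∃ c : ℝ, c = (((Ioc y (y + h)).filter Nat.Prime).card : ℝ) := ⟨_, rfl⟩
  have hc0 : 0 ≤ c := by rw [hc]; positivity
  have hnn : n ≤ n ^ 2 := by nlinarith
  have hlo2 : c * (2 * L - 1) ≤ S := by
    rw [hc, hS, ← nsmul_eq_mul]
    refine card_nsmul_le_sum _ _ _ fun t ht => ?_
    have h3 := mem_Ioc.1 (mem_filter.1 ht).1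
    have h4 : (n : ℝ) ^ 2 / 2 ≤ t := by
      have h5 : n ^ 2 < t + n := by omega
      have h6 : (n : ℝ) ^ 2 < t + n := by exact_mod_cast h5
      nlinarith
    have h5 := Real.log_le_log (by positivity) h4
    rw [Real.log_div (by positivity) (by norm_num), Real.log_pow, ← hL] at h5
    push_cast at h5
    linarith
  have hup2 : S ≤ c * (2 * L + 1) := by
    rw [hc, hS, ← nsmul_eq_mul]
    refine sum_le_card_nsmul _ _ _ fun t ht => ?_
    have h3 := mem_Ioc.1 (mem_filter.1 ht).1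
    have h4 : (t : ℝ) ≤ (n : ℝ) ^ 2 * 2 := by
      have h5 : t ≤ n ^ 2 + n := by omega
      have h6 : (t : ℝ) ≤ (n : ℝ) ^ 2 + n := by exact_mod_cast h5
      nlinarith
    have h5 := Real.log_le_log (by exact_mod_cast (by omega : 0 < t)) h4
    rw [Real.log_mul (by positivity) (by norm_num), Real.log_pow, ← hL] at h5
    push_cast at h5
    linarith
  rw [← hc, ← hL]
  have hδL : 1 + δ ≤ δ * L := by
    have := mul_le_mul_of_nonneg_left hL1 hδ.le
    have h3 : δ * (1 / δ + 1) = 1 + δ := by field_simp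
    linarith
  constructor
  · have h3 : (1 - 3 / 8 * δ) * h ≤ c * (2 * L + 1) := by linarith
    rw [← mul_div_assoc, div_le_iff₀ (by linarith)]
    by_cases hδ1 : 1 ≤ δ
    · have h4 : (1 - δ) * h ≤ 0 := by nlinarith
      have h5 : 0 ≤ c * (2 * L) := by positivity
      linarith
    · push Not at hδ1
      have h4 : (1 - δ) * (2 * L + 1) ≤ (1 - 3 / 8 * δ) * (2 * L) := by nlinarith
      have h5 : (1 - δ) * h * (2 * L + 1) ≤ c * (2 * L) * (2 * L + 1) := by
        calc (1 - δ) * h * (2 * L + 1) = ((1 - δ) * (2 * L + 1)) * h := by ring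
          _ ≤ ((1 - 3 / 8 * δ) * (2 * L)) * h := mul_le_mul_of_nonneg_right h4 hh0.le
          _ = ((1 - 3 / 8 * δ) * h) * (2 * L) := by ring
          _ ≤ (c * (2 * L + 1)) * (2 * L) := mul_le_mul_of_nonneg_right h3 (by linarith)
          _ = _ := by ring
      exact le_of_mul_le_mul_right h5 (by linarith)
  · have h3 : c * (2 * L - 1) ≤ (1 + 3 / 8 * δ) * h := by linarith
    rw [← mul_div_assoc, le_div_iff₀ (by linarith)]
    have h4 : (1 + 3 / 8 * δ) * (2 * L) ≤ (1 + δ) * (2 * L - 1) := by nlinarith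
    have h5 : c * (2 * L) * (2 * L - 1) ≤ (1 + δ) * h * (2 * L - 1) := by
      calc c * (2 * L) * (2 * L - 1) = (c * (2 * L - 1)) * (2 * L) := by ring
        _ ≤ ((1 + 3 / 8 * δ) * h) * (2 * L) := mul_le_mul_of_nonneg_right h3 (by linarith)
        _ = ((1 + 3 / 8 * δ) * (2 * L)) * h := by ring
        _ ≤ ((1 + δ) * (2 * L - 1)) * h := mul_le_mul_of_nonneg_right h4 hh0.le
        _ = _ := by ring
    exact le_of_mul_le_mul_right h5 (by linarith)

end Pool.Agent.V8H12.OP
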