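import Pool.Agent.Q236.CR.Stm
import Pool.Agent.V8H12.OP.A
import Pool.Agent.V8H12.OP.B

set_option autoImplicit false

/-! The asymptotic formula in the intervals of Oppermann for almost all integers, from the mean square in short windows. -/

namespace Pool.Agent.V8H12.OP

open Finset Filter ArithmeticFunction
open Pool.Agent.Q236.CR (S_SIC cL)

/-- prefix sums -/
noncomputable def P (k : ℕ) : ℝ := ∑ t ∈ Ioc 0 k, (vonMangoldt t - 1)

lemma P_sub (a n : ℕ) : P (a + n) - P a = ∑ t ∈ Ioc a (a + n), (vonMangoldt t - 1) := by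
  unfold P
  rw [← Finset.sum_Ioc_consecutive (fun t => vonMangoldt t - 1) (Nat.zero_le a) (by omega : a ≤ a + n)]
  ring

/-- mean squares in short windows -/
lemma sic1 (h : S_SIC) (U : ℕ) : ∃ x₀ : ℕ, ∀ x : ℕ, x₀ ≤ x → ∀ Y : ℕ, (x : ℝ) ^ (2 / 5 : ℝ) ≤ Y → Y ≤ x →
    ∑ m ∈ Ioc x (2 * x), (P (m + Y) - P m) ^ 2 ≤ x * (Y : ℝ) ^ 2 / Real.log x ^ U := by
  obtain ⟨C, X₀, hX⟩ := h 0 U
  have h1 := (isLittleO_log_rpow_rpow_atTop (s := (1 / 15 : ℝ)) (C : ℝ) (by norm_num)).bound (c := 1) one_pos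
  obtain ⟨x₁, hx₁⟩ := eventually_atTop.1 (tendsto_natCast_atTop_atTop.eventually h1)
  refine ⟨max (max X₀ x₁) 3, fun x hx Y hY hYx => ?_⟩
  have hx3 : 3 ≤ x := (le_max_right _ _).trans hx
  have hx0 : (0 : ℝ) < x := by exact_mod_cast (by omega : 0 < x)
  have hlog : 0 ≤ Real.log x := Real.log_nonneg (by exact_mod_cast (by omega : 1 ≤ x))
  have h2 := hx₁ x ((le_max_right _ _).trans ((le_max_left _ _).trans hx))
  rw [Real.norm_eq_abs, Real.norm_eq_abs, abs_of_nonneg (Real.rpow_nonneg hlog _), abs_of_nonneg (by positivity),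
    one_mul, Real.rpow_natCast] at h2
  have h3 : (x : ℝ) ^ (1 / 3 : ℝ) * Real.log x ^ C ≤ Y := by
    refine le_trans ?_ hY
    calc (x : ℝ) ^ (1 / 3 : ℝ) * Real.log x ^ C ≤ (x : ℝ) ^ (1 / 3 : ℝ) * (x : ℝ) ^ (1 / 15 : ℝ) :=
          mul_le_mul_of_nonneg_left h2 (by positivity)
      _ = (x : ℝ) ^ (2 / 5 : ℝ) := by
          rw [← Real.rpow_add hx0]
          norm_num
  have h4 := (hX x ((le_max_left _ _).trans ((le_max_left _ _).trans hx)) 1 ⟨one_ne_zero⟩ (by simp) 1 Y h3 hYx).1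
  refine le_trans (le_of_eq ?_) h4
  refine sum_congr rfl fun m _ => ?_
  rw [P_sub]
  have e1 : ∑ n ∈ Ioc m (m + Y), (cL (1 : DirichletCharacter ℂ 1) n - (if (1 : DirichletCharacter ℂ 1) = 1 then 1 else 0)) =
      ((∑ t ∈ Ioc m (m + Y), (vonMangoldt t - 1) : ℝ) : ℂ) := by
    push_cast
    refine sum_congr rfl fun t _ => ?_
    rw [if_pos rfl]
    unfold cL
    have h5 : ((t : ℕ) : ZMod 1) = 1 := Subsingleton.elim _ _
    rw [h5, map_one, one_mul]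
  rw [e1, Complex.norm_real, Real.norm_eq_abs, sq_abs]

/-- a long part of the two intervals of `n` with a large deviation -/
def Dev (A : ℕ) (ε : ℝ) (n : ℕ) : Prop :=
  ∃ y h : ℕ, (n : ℝ) / Real.log n ^ A ≤ h ∧ n ^ 2 ≤ y + n ∧ y + h ≤ n ^ 2 + n ∧
    ε * h < |∑ t ∈ Ioc y (y + h), (vonMangoldt t - 1)|

open Classical in
/-- **the exceptional set in a dyadic block** -/
theorem block (h : S_SIC) (A : ℕ) {ε : ℝ} (hε : 0 < ε) (U : ℕ) : ∃ N₀ : ℕ, ∀ N : ℕ, N₀ ≤ N →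
    (((Ioc N (2 * N)).filter (fun n => Dev A ε n)).card : ℝ) ≤ N / Real.log N ^ U := by
  obtain ⟨x₀, hx₀⟩ := sic1 h (U + A + 1)
  -- eventually conditions
  have c1 : ∀ᶠ N : ℕ in atTop, 48 * 2 ^ A / ε ^ 2 ≤ Real.log N :=
    (Real.tendsto_log_atTop.comp tendsto_natCast_atTop_atTop).eventually_ge_atTop _
  have c2 : ∀ᶠ x : ℝ in atTop, Real.log x ^ (A + 1) ≤ ε / (32 * 2 ^ A) * x ^ (1 / 10 : ℝ) := by
    have h2 := (isLittleO_log_rpow_rpow_atTop (s := (1 / 10 : ℝ)) ((A + 1 : ℕ) : ℝ) (by norm_num)).bound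
      (c := ε / (32 * 2 ^ A)) (by positivity)
    filter_upwards [h2, eventually_ge_atTop 1] with x hx hx1
    rw [Real.norm_eq_abs, Real.norm_eq_abs, abs_of_nonneg (Real.rpow_nonneg (Real.log_nonneg hx1) _),
      abs_of_nonneg (by positivity), Real.rpow_natCast] at hx
    exact hx
  have c3 : ∀ᶠ x : ℝ in atTop, 20 ≤ x ^ (1 / 10 : ℝ) := (tendsto_rpow_atTop (by norm_num)).eventually_ge_atTop _
  have c4 : ∀ᶠ x : ℝ in atTop, 3 * x ^ (4 / 5 : ℝ) + 1 ≤ x ^ (9 / 10 : ℝ) := by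
    filter_upwards [c3, eventually_ge_atTop 1] with x hx hx1
    have h2 : x ^ (9 / 10 : ℝ) = x ^ (4 / 5 : ℝ) * x ^ (1 / 10 : ℝ) := by
      rw [← Real.rpow_add (by linarith)]
      norm_num
    have h3 : 1 ≤ x ^ (4 / 5 : ℝ) := Real.one_le_rpow hx1 (by norm_num)
    rw [h2]
    nlinarith
  obtain ⟨N₁, hN₁⟩ := eventually_atTop.1 c1
  obtain ⟨N₂, hN₂⟩ := eventually_atTop.1 (tendsto_natCast_atTop_atTop.eventually c2)
  obtain ⟨N₃, hN₃⟩ := eventually_atTop.1 (tendsto_natCast_atTop_atTop.eventually c4)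
  refine ⟨max (max (max N₁ N₂) N₃) (max x₀ 16), fun N hN => ?_⟩
  have hN16 : 16 ≤ N := (le_max_right _ _).trans ((le_max_right _ _).trans hN)
  have hNx : x₀ ≤ N := (le_max_left _ _).trans ((le_max_right _ _).trans hN)
  have hA := hN₁ N ((le_max_left _ _).trans ((le_max_left _ _).trans ((le_max_left _ _).trans hN)))
  have hB := hN₂ N ((le_max_right _ _).trans ((le_max_left _ _).trans ((le_max_left _ _).trans hN)))
  have hC := hN₃ N ((le_max_right _ _).trans ((le_max_left _ _).trans hN))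
  have hN16' : (16 : ℝ) ≤ N := by exact_mod_cast hN16
  have hN0 : (0 : ℝ) < N := by linarith
  have hN1 : (1 : ℝ) ≤ N := by linarith
  have hlog : 1 ≤ Real.log N := by
    rw [Real.le_log_iff_exp_le hN0]
    have := Real.exp_one_lt_d9
    linarith
  obtain ⟨L, hL⟩ : ∃ L, L = Real.log N := ⟨_, rfl⟩
  rw [← hL] at hA hB hlog
  have hLA : 0 < L ^ A := by positivity
  have h2A : (0 : ℝ) < 2 ^ A := by positivity
  -- the least length
  obtain ⟨H, hH⟩ : ∃ H : ℝ, H = N / (2 ^ A * L ^ A) := ⟨_, rfl⟩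
  obtain ⟨Y, hY⟩ : ∃ Y : ℕ, Y = ⌊(N : ℝ) ^ (9 / 10 : ℝ)⌋₊ := ⟨_, rfl⟩
  have hY1 : (Y : ℝ) ≤ (N : ℝ) ^ (9 / 10 : ℝ) := by
    rw [hY]
    exact Nat.floor_le (by positivity)
  have hY2 : 3 * (N : ℝ) ^ (4 / 5 : ℝ) ≤ Y := by
    have := Nat.lt_floor_add_one ((N : ℝ) ^ (9 / 10 : ℝ))
    rw [← hY] at this
    linarith
  have hYN : Y ≤ N := by
    have h2 : (N : ℝ) ^ (9 / 10 : ℝ) ≤ N := by
      calc (N : ℝ) ^ (9 / 10 : ℝ) ≤ (N : ℝ) ^ (1 : ℝ) := Real.rpow_le_rpow_of_exponent_le hN1 (by norm_num)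
        _ = N := Real.rpow_one _
    exact_mod_cast hY1.trans h2
  have hYpos : (0 : ℝ) < Y := lt_of_lt_of_le (by positivity) hY2
  -- the bound for the terms
  obtain ⟨B, hB'⟩ : ∃ B : ℝ, B = 8 * L := ⟨_, rfl⟩
  have hstep : ∀ m : ℕ, m < 8 * N ^ 2 + Y → |P (m + 1) - P m| ≤ B := by
    intro m hm
    rw [P_sub]
    have e1 : Ioc m (m + 1) = {m + 1} := by
      ext t
      rw [mem_Ioc, mem_singleton]
      omega
    rw [e1, sum_singleton]
    have h2 : vonMangoldt (m + 1) ≤ Real.log ((m + 1 : ℕ) : ℝ) := vonMangoldt_le_log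
    have h3 : (0 : ℝ) ≤ vonMangoldt (m + 1) := vonMangoldt_nonneg
    have h4 : ((m + 1 : ℕ) : ℝ) ≤ (N : ℝ) ^ 3 := by
      have h5 : m + 1 ≤ N ^ 3 := by
        have h6 : N ^ 3 = N * N ^ 2 := by ring
        have h7 : N ≤ N ^ 2 := by nlinarith
        have h8 : 16 * N ^ 2 ≤ N * N ^ 2 := Nat.mul_le_mul_right _ hN16
        omega
      exact_mod_cast h5
    have h5 : Real.log ((m + 1 : ℕ) : ℝ) ≤ 3 * L := by
      have h6 := Real.log_le_log (by positivity) h4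
      rw [Real.log_pow, ← hL] at h6
      exact_mod_cast h6
    rw [abs_le]
    constructor
    · linarith
    · linarith
  have hYB : 4 * (Y : ℝ) * B ≤ ε * H := by
    have h2 : (N : ℝ) = (N : ℝ) ^ (9 / 10 : ℝ) * (N : ℝ) ^ (1 / 10 : ℝ) := by
      rw [← Real.rpow_add hN0]
      norm_num
    rw [hB', hH, ← mul_div_assoc, le_div_iff₀ (by positivity)]
    have h4 : (Y : ℝ) * L ^ (A + 1) ≤ (N : ℝ) ^ (9 / 10 : ℝ) * (ε / (32 * 2 ^ A) * (N : ℝ) ^ (1 / 10 : ℝ)) :=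
      mul_le_mul hY1 hB (by positivity) (by positivity)
    calc 4 * (Y : ℝ) * (8 * L) * (2 ^ A * L ^ A) = 32 * 2 ^ A * ((Y : ℝ) * L ^ (A + 1)) := by ring
      _ ≤ 32 * 2 ^ A * ((N : ℝ) ^ (9 / 10 : ℝ) * (ε / (32 * 2 ^ A) * (N : ℝ) ^ (1 / 10 : ℝ))) :=
          mul_le_mul_of_nonneg_left h4 (by positivity)
      _ = ε * ((N : ℝ) ^ (9 / 10 : ℝ) * (N : ℝ) ^ (1 / 10 : ℝ)) := by
          field_simp
      _ = ε * N := by rw [← h2]
  -- the windows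
  obtain ⟨S, hS⟩ : ∃ S, S = (Ioc N (2 * N)).filter (fun n => Dev A ε n) := ⟨_, rfl⟩
  rw [← hS]
  have hSsub : S ⊆ Ioc N (2 * N) := by
    rw [hS]
    exact filter_subset _ _
  have hSdev : ∀ n : ℕ, ∃ y l : ℕ, n ∈ S → (n : ℝ) / Real.log n ^ A ≤ l ∧ n ^ 2 ≤ y + n ∧ y + l ≤ n ^ 2 + n ∧
      ε * l < |∑ t ∈ Ioc y (y + l), (vonMangoldt t - 1)| := by
    intro n
    by_cases hn : n ∈ S
    · have h2 := hn
      rw [hS, mem_filter] at h2
      obtain ⟨y, l, h3⟩ := h2.2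
      exact ⟨y, l, fun _ => h3⟩
    · exact ⟨0, 0, fun h => absurd h hn⟩
  choose a l hal using hSdev
  have hlen : ∀ n ∈ S, H ≤ l n := by
    intro n hn
    have h2 := mem_Ioc.1 (hSsub hn)
    refine le_trans ?_ (hal n hn).1
    have h3 : (N : ℝ) ≤ n := by exact_mod_cast h2.1.le
    have h4 : (n : ℝ) ≤ (N : ℝ) ^ 2 := by
      have h5 : (n : ℝ) ≤ 2 * N := by exact_mod_cast h2.2
      nlinarith
    have h5 : Real.log n ≤ 2 * L := by
      have h6 := Real.log_le_log (by linarith : (0 : ℝ) < n) h4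
      rw [Real.log_pow, ← hL] at h6
      exact_mod_cast h6
    have h6 : 0 < Real.log n := Real.log_pos (by linarith)
    have h7 : Real.log n ^ A ≤ 2 ^ A * L ^ A := by
      rw [← mul_pow]
      exact pow_le_pow_left₀ h6.le h5 _
    rw [hH]
    exact div_le_div₀ (by linarith) h3 (by positivity) h7
  have hH0 : 0 < H := by
    rw [hH]
    positivity
  have hcount := windows_count P (B := B) (ε := ε) (H := H) (M := N ^ 2) (M' := 8 * N ^ 2) (Y := Y) S a l (fun n hn => by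
      have h2 := mem_Ioc.1 (hSsub hn)
      obtain ⟨-, g1, g2, -⟩ := hal n hn
      have h3 : n ^ 2 ≤ (2 * N) ^ 2 := Nat.pow_le_pow_left h2.2 2
      have h6 : (N + 1) * N ≤ n ^ 2 - n := by
        have h7 : n ^ 2 - n = n * (n - 1) := by
          rw [Nat.mul_sub, mul_one, pow_two]
        rw [h7]
        exact Nat.mul_le_mul h2.1 (by omega)
      have h8 : n ≤ n ^ 2 := by nlinarith
      have h9 : (N + 1) * N = N ^ 2 + N := by ring
      have h10 : (2 * N) ^ 2 = 4 * N ^ 2 := by ring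
      have h11 : N ≤ N ^ 2 := by nlinarith
      exact ⟨by omega, by omega⟩)
    (fun n hn => by
      have h2 := hlen n hn
      refine ⟨?_, h2⟩
      have h3 : (0 : ℝ) < l n := by linarith
      exact_mod_cast h3)
    (fun n hn n' hn' hlt => by
      have h2 := mem_Ioc.1 (hSsub hn)
      obtain ⟨-, -, g2, -⟩ := hal n hn
      obtain ⟨-, g3, -, -⟩ := hal n' hn'
      have h3 : (n + 1) * n ≤ n' * (n' - 1) := Nat.mul_le_mul hlt (by omega)
      have h7 : n' ^ 2 - n' = n' * (n' - 1) := by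
        rw [Nat.mul_sub, mul_one, pow_two]
      have h9 : (n + 1) * n = n ^ 2 + n := by ring
      omega)
    hstep hε hYB (fun n hn => by
      rw [P_sub]
      exact (hal n hn).2.2.2.le)
  -- the mean squares
  have hmean : ∀ i : ℕ, i < 3 → ∑ m ∈ Ioc (2 ^ i * N ^ 2) (2 * (2 ^ i * N ^ 2)), (P (m + Y) - P m) ^ 2 ≤
      4 * N ^ 2 * (Y : ℝ) ^ 2 / L ^ (U + A + 1) := by
    intro i hi
    have hi4 : 2 ^ i ≤ 4 := by interval_cases i <;> norm_num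
    have hi1 : 1 ≤ 2 ^ i := Nat.one_le_two_pow
    have hNN : N ≤ 2 ^ i * N ^ 2 := by nlinarith
    have h2 := hx₀ (2 ^ i * N ^ 2) (by omega) Y (by
      refine le_trans ?_ hY2
      have h3 : ((2 ^ i * N ^ 2 : ℕ) : ℝ) ≤ 4 * (N : ℝ) ^ 2 := by
        have : 2 ^ i * N ^ 2 ≤ 4 * N ^ 2 := Nat.mul_le_mul_right _ hi4
        exact_mod_cast this
      calc ((2 ^ i * N ^ 2 : ℕ) : ℝ) ^ (2 / 5 : ℝ) ≤ (4 * (N : ℝ) ^ 2) ^ (2 / 5 : ℝ) :=
            Real.rpow_le_rpow (Nat.cast_nonneg _) h3 (by norm_num)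
        _ = (4 : ℝ) ^ (2 / 5 : ℝ) * (N : ℝ) ^ (4 / 5 : ℝ) := by
            rw [Real.mul_rpow (by norm_num) (by positivity), ← Real.rpow_natCast, ← Real.rpow_mul hN0.le]
            norm_num
        _ ≤ 3 * (N : ℝ) ^ (4 / 5 : ℝ) := by
            apply mul_le_mul_of_nonneg_right _ (by positivity)
            calc (4 : ℝ) ^ (2 / 5 : ℝ) ≤ (4 : ℝ) ^ (1 / 2 : ℝ) :=
                  Real.rpow_le_rpow_of_exponent_le (by norm_num) (by norm_num)
              _ = 2 := by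
                  rw [show (4 : ℝ) = 2 ^ (2 : ℝ) by norm_num, ← Real.rpow_mul (by norm_num)]
                  norm_num
              _ ≤ 3 := by norm_num) (hYN.trans hNN)
    refine h2.trans ?_
    have h3 : L ≤ Real.log ((2 ^ i * N ^ 2 : ℕ) : ℝ) := by
      rw [hL]
      exact Real.log_le_log hN0 (by exact_mod_cast hNN)
    have h4 : L ^ (U + A + 1) ≤ Real.log ((2 ^ i * N ^ 2 : ℕ) : ℝ) ^ (U + A + 1) :=
      pow_le_pow_left₀ (by linarith) h3 _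
    have h5 : ((2 ^ i * N ^ 2 : ℕ) : ℝ) ≤ 4 * (N : ℝ) ^ 2 := by
      have : 2 ^ i * N ^ 2 ≤ 4 * N ^ 2 := Nat.mul_le_mul_right _ hi4
      exact_mod_cast this
    exact div_le_div₀ (by positivity) (mul_le_mul_of_nonneg_right h5 (by positivity)) (by positivity) h4
  have hsum : ∑ m ∈ Ioc (N ^ 2) (8 * N ^ 2), (P (m + Y) - P m) ^ 2 ≤
      12 * N ^ 2 * (Y : ℝ) ^ 2 / L ^ (U + A + 1) := by
    have g0 := hmean 0 (by norm_num)
    have g1 := hmean 1 (by norm_num)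
    have g2 := hmean 2 (by norm_num)
    have e0 : 2 ^ 0 * N ^ 2 = N ^ 2 := by ring
    have e1 : 2 * (2 ^ 0 * N ^ 2) = 2 * N ^ 2 := by ring
    have e2 : 2 ^ 1 * N ^ 2 = 2 * N ^ 2 := by ring
    have e3 : 2 * (2 ^ 1 * N ^ 2) = 4 * N ^ 2 := by ring
    have e4 : 2 ^ 2 * N ^ 2 = 4 * N ^ 2 := by ring
    have e5 : 2 * (2 ^ 2 * N ^ 2) = 8 * N ^ 2 := by ring
    rw [e1, e0] at g0
    rw [e3, e2] at g1
    rw [e5, e4] at g2
    rw [← Finset.sum_Ioc_consecutive _ (by omega : N ^ 2 ≤ 4 * N ^ 2) (by omega : 4 * N ^ 2 ≤ 8 * N ^ 2),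
      ← Finset.sum_Ioc_consecutive _ (by omega : N ^ 2 ≤ 2 * N ^ 2) (by omega : 2 * N ^ 2 ≤ 4 * N ^ 2)]
    have e6 : 12 * (N : ℝ) ^ 2 * (Y : ℝ) ^ 2 / L ^ (U + A + 1) =
        4 * (N : ℝ) ^ 2 * (Y : ℝ) ^ 2 / L ^ (U + A + 1) + 4 * (N : ℝ) ^ 2 * (Y : ℝ) ^ 2 / L ^ (U + A + 1) +
          4 * (N : ℝ) ^ 2 * (Y : ℝ) ^ 2 / L ^ (U + A + 1) := by ring
    rw [e6]
    linarith
  have hfin := hcount.trans hsum
  -- conclusion
  have hL0 : 0 < L := by linarith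
  rw [← hL, le_div_iff₀ (by positivity)]
  have h2 : (S.card : ℝ) * (ε ^ 2 / (4 * 2 ^ A)) * L ^ (U + 1) ≤ 12 * N := by
    rw [le_div_iff₀ (by positivity), hH] at hfin
    have h3 : (0 : ℝ) < (Y : ℝ) ^ 2 * N := by positivity
    have h4 : (S.card : ℝ) * (ε ^ 2 / (4 * 2 ^ A)) * L ^ (U + 1) * ((Y : ℝ) ^ 2 * N) ≤ 12 * N * ((Y : ℝ) ^ 2 * N) := by
      calc (S.card : ℝ) * (ε ^ 2 / (4 * 2 ^ A)) * L ^ (U + 1) * ((Y : ℝ) ^ 2 * N) =
          (S.card : ℝ) * ((Y : ℝ) ^ 2 * (ε ^ 2 * (N / (2 ^ A * L ^ A)) / 4)) * L ^ (U + A + 1) := by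
            rw [show U + A + 1 = U + 1 + A by ring, pow_add L (U + 1) A]
            field_simp
        _ ≤ 12 * N ^ 2 * (Y : ℝ) ^ 2 := hfin
        _ = _ := by ring
    exact le_of_mul_le_mul_right h4 h3
  have h4 : 12 ≤ ε ^ 2 / (4 * 2 ^ A) * L := by
    rw [div_le_iff₀ (by positivity)] at hA
    rw [div_mul_eq_mul_div, le_div_iff₀ (by positivity)]
    linarith
  have h5 : 0 ≤ (S.card : ℝ) * L ^ U := by positivity
  have h6 : (S.card : ℝ) * L ^ U * 12 ≤ 12 * N := by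
    calc (S.card : ℝ) * L ^ U * 12 ≤ (S.card : ℝ) * L ^ U * (ε ^ 2 / (4 * 2 ^ A) * L) :=
          mul_le_mul_of_nonneg_left h4 h5
      _ = (S.card : ℝ) * (ε ^ 2 / (4 * 2 ^ A)) * L ^ (U + 1) := by ring
      _ ≤ _ := h2
  linarith

end Pool.Agent.V8H12.OP
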